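import Mathlib
import Pool.Agent.P8H3.RA.Stm

/-!
Package DIM of project RA (helper5): transcendence degree of the field of the ratios of the
coordinates of a point of a linear space.
-/

set_option autoImplicit false

namespace Pool.Agent.P8H5.RA

open Pool.Agent.W602.GT (coords)
open Pool.Agent.P8H3.RA

theorem isAlgebraic_of_le {k K : Type} [Field k] [Field K] [Algebra k K]
    {E F : IntermediateField k K} (h : E ≤ F) (hE : Algebra.IsAlgebraic E K) :
    Algebra.IsAlgebraic F K := by
  letI : Algebra E F := (IntermediateField.inclusion h).toRingHom.toAlgebra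
  haveI : IsScalarTower E F K := IsScalarTower.of_algebraMap_eq (fun _ => rfl)
  exact Algebra.IsAlgebraic.tower_top (K := E) F

theorem isAlgebraic_of_eq_top {k K : Type} [Field k] [Field K] [Algebra k K]
    {E : IntermediateField k K} (h : E = ⊤) : Algebra.IsAlgebraic E K := by
  refine ⟨fun y => ?_⟩
  have hy : y ∈ E := by rw [h]; trivial
  exact isAlgebraic_algebraMap (⟨y, hy⟩ : E)

theorem dim : S_DIM := by
  intro k K _ _ _ n p d B f x hx hxB hd
  obtain ⟨j₀, hj₀⟩ : ∃ j, f j ≠ 0 := by
    by_contra h
    push Not at h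
    exact hx (funext fun l => by simp [hxB, h])
  set r : Fin p → K := fun i => f (j₀.succAbove i) / f j₀ with hr
  set F := IntermediateField.adjoin k (Set.range r) with hF
  set s : Fin (n + 1) → K := fun l => algebraMap k K (B j₀ l) +
    ∑ i, algebraMap k K (B (j₀.succAbove i) l) * r i with hsdef
  have hs : ∀ l, s l ∈ F := by
    intro l
    exact add_mem (F.algebraMap_mem _) (sum_mem fun i _ => mul_mem (F.algebraMap_mem _)
      (IntermediateField.subset_adjoin _ _ ⟨i, rfl⟩))
  have hxs : ∀ l, x l = f j₀ * s l := by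
    intro l
    rw [hxB, Fin.sum_univ_succAbove _ j₀]
    simp only [hsdef, hr, mul_add, Finset.mul_sum]
    congr 1
    · ring
    · refine Finset.sum_congr rfl fun i _ => ?_
      field_simp
  have hle : coords k x ≤ F := by
    refine IntermediateField.adjoin_le_iff.2 ?_
    rintro z ⟨i, j, hj, rfl⟩
    rw [hxs i, hxs j, mul_div_mul_left _ _ hj₀]
    exact div_mem (hs i) (hs j)
  have h1 : Algebra.IsAlgebraic (coords k x) K → d ≤ p := by
    intro h
    have h0 : Algebra.IsAlgebraic F K := isAlgebraic_of_le hle h
    have h' : Algebra.IsAlgebraic (Algebra.adjoin k (Set.range r)) K :=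
      IntermediateField.isAlgebraic_adjoin_iff_top.1 h0
    have h3 := Algebra.IsAlgebraic.trdeg_le_cardinalMk k (Set.range r)
    have h2 : Cardinal.mk (Set.range r) ≤ (p : Cardinal) := by
      refine Cardinal.mk_range_le.trans ?_
      simp
    rw [hd] at h3
    exact_mod_cast h3.trans h2
  refine ⟨h1, fun htop hpd => ?_⟩
  have hdp : d = p := le_antisymm (h1 (isAlgebraic_of_eq_top htop)) hpd
  refine ⟨hdp, ?_⟩
  subst hdp
  have hFtop : F = ⊤ := top_le_iff.1 (htop ▸ hle)
  have h' : Algebra.IsAlgebraic (Algebra.adjoin k (Set.range r)) K :=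
    IntermediateField.isAlgebraic_adjoin_iff_top.1 (isAlgebraic_of_eq_top hFtop)
  have hb : IsTranscendenceBasis k r := by
    refine Algebra.IsAlgebraic.isTranscendenceBasis_of_le_trdeg_of_finite k r ?_
    rw [hd]
    simp
  have hind : AlgebraicIndependent k r := hb.1
  have e1 := hind.aevalEquivField
  have e2 : (IntermediateField.adjoin k (Set.range r)) ≃ₐ[k] K :=
    (IntermediateField.equivOfEq hFtop).trans IntermediateField.topEquiv
  exact ⟨(e1.trans e2).symm⟩

end Pool.Agent.P8H5.RA
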